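import Mathlib
import Pool.Agent.Lib.helper26.GoodD

set_option autoImplicit false

namespace Pool.Agent.Results.MP_54c2ef_al.GoodAut

universe u

/-- `I ^ m`: the span of all monomials of degree at least `m` in the free algebra -/
def idealPow (K : Type u) [Field K] (n m : ℕ) : Submodule K (FreeAlgebra K (Fin n)) :=
  Submodule.span K {w | ∃ l : List (Fin n), m ≤ l.length ∧ w = (l.map (FreeAlgebra.ι K)).prod}

/-- Every good endomorphism of a free associative algebra over a field is an automorphism.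
The product of `ψ` and `θ` may be read in either order, even depending on `m`. -/
theorem result (K : Type u) [Field K] (n : ℕ)
    (φ : FreeAlgebra K (Fin n) →ₐ[K] FreeAlgebra K (Fin n))
    (h : ∀ m : ℕ, 1 ≤ m → ∃ (ψ : FreeAlgebra K (Fin n) →ₐ[K] FreeAlgebra K (Fin n))
      (θ : FreeAlgebra K (Fin n) ≃ₐ[K] FreeAlgebra K (Fin n)),
      (φ = ψ.comp θ.toAlgHom ∨ φ = θ.toAlgHom.comp ψ) ∧
        ∀ i, ψ (FreeAlgebra.ι K i) - FreeAlgebra.ι K i ∈ idealPow K n m) :
    Function.Bijective φ :=
  ⟨Pool.Agent.Lib.H26Good.good_inj h, Pool.Agent.Lib.H26Good.good_surj h⟩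

end Pool.Agent.Results.MP_54c2ef_al.GoodAut
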